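import Mathlib
import Pool.Agent.W66.GG
import Pool.Agent.H473R4.Count

set_option autoImplicit false

/-!
# Prime values of `p` in `p ^ 2 - 2 r ^ 2 = - 1`: the asymptotic law for almost every amplitude

The positive solutions of `p ^ 2 - 2 r ^ 2 = - 1` are `p + r √2 = (1 + √2) ^ n`, `n` odd, so
`p = ((1 + √2) ^ n + (1 - √2) ^ n) / 2`; if `p` is prime, so is `n`.  For real `c`, real `β > 0` and
a prime `q` let `W c β q` be the `q`-rough part (the product, with multiplicity, of the prime
factors larger than `q`) of `⌊β (1 + √2) ^ q + c (1 - √2) ^ q⌋`, and let `N c β n` be the number of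
primes `q ≤ n` with `W c β q` prime.  At `(c, β) = (1 / 2, 1 / 2)` these are the numbers of the
problem.  We prove that for every `c` and almost every `β > 0` the limit of `N c β n / log n` exists
and equals `e ^ γ / log (1 + √2)`.
-/

namespace Pool.Agent.Results.MP_927e73_nt.PellLaw

open Filter Topology MeasureTheory

/-- The product, with multiplicity, of the prime factors of `m` that are larger than `q`. -/
def roughPart (q m : ℕ) : ℕ := (m.primeFactorsList.filter (fun r => q < r)).prod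

/-- The `q`-rough part of `⌊β (1 + √2) ^ q + c (1 - √2) ^ q⌋`. -/
noncomputable def W (c β : ℝ) (q : ℕ) : ℕ :=
  roughPart q ⌊β * (1 + Real.sqrt 2) ^ q + c * (1 - Real.sqrt 2) ^ q⌋₊

/-- The number of primes `q ≤ n` for which `W c β q` is prime. -/
noncomputable def N (c β : ℝ) (n : ℕ) : ℕ :=
  ((Finset.range (n + 1)).filter (fun q => q.Prime ∧ (W c β q).Prime)).card

/-- The special point. -/
lemma special {q : ℕ} (hq : q.Prime) (h5 : 5 ≤ q) :
    ((W (1 / 2) (1 / 2) q : ℕ) : ℝ) = ((1 + Real.sqrt 2) ^ q + (1 - Real.sqrt 2) ^ q) / 2 ∧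
      W (1 / 2) (1 / 2) q = (Pool.Agent.W66V.sol q).1 := by
  have hx : 1 / 2 * (1 + Real.sqrt 2) ^ q + 1 / 2 * (1 - Real.sqrt 2) ^ q =
      (Pool.Agent.W66V.sol q).1 := by
    rw [(Pool.Agent.W66V.sol_pow q).1, (Pool.Agent.W66V.sol_pow q).2]; ring
  have h : W (1 / 2) (1 / 2) q = (Pool.Agent.W66V.sol q).1 := by
    unfold W
    rw [hx, Nat.floor_natCast]
    refine Pool.Agent.H447R2.ML.roughPart_eq_self (Pool.Agent.W66V.sol1_pos q).ne' fun l hl hd => ?_
    have hnorm := Pool.Agent.W66V.sol_norm q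
    refine Pool.Agent.H447R2.ML.lt_of_dvd_V 2 hq h5 ?_ hl ?_ ?_
    · intro h2
      have := Nat.le_of_dvd (by norm_num) h2
      omega
    · intro h2
      have h3 : l = 2 := (Nat.prime_dvd_prime_iff_eq hl Nat.prime_two).1 h2
      rw [h3] at hd
      obtain ⟨k, hk⟩ := hd
      rw [hk] at hnorm
      have hodd : Odd q := hq.odd_of_ne_two (by omega)
      rw [hodd.neg_one_pow] at hnorm
      push_cast at hnorm
      have : (2 : ℤ) * (2 * (k : ℤ) ^ 2 - ((Pool.Agent.W66V.sol q).2 : ℤ) ^ 2) = -1 := by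
        linear_combination hnorm
      omega
    · rw [(Pool.Agent.W66V.sol_UV q).1]
      exact hd.mul_left 2
  refine ⟨?_, h⟩
  rw [h, ← hx]; ring

theorem result :
    -- the numbers of the problem are the values at `(c, β) = (1 / 2, 1 / 2)`
    (∀ q : ℕ, q.Prime → 5 ≤ q →
      ((W (1 / 2) (1 / 2) q : ℕ) : ℝ) = ((1 + Real.sqrt 2) ^ q + (1 - Real.sqrt 2) ^ q) / 2) ∧
    -- Q1 is the unboundedness of the counting function at this point
    ({x : ℕ × ℕ | x.1 ^ 2 + 1 = 2 * x.2 ^ 2 ∧ x.1.Prime}.Infinite ↔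
      Tendsto (fun n => N (1 / 2) (1 / 2) n) atTop atTop) ∧
    -- the law for almost every amplitude
    (∀ c : ℝ, ∀ᵐ β : ℝ, 0 < β →
      Tendsto (fun n : ℕ => (N c β n : ℝ) / Real.log n) atTop
        (𝓝 (Real.exp Real.eulerMascheroniConstant / Real.log (1 + Real.sqrt 2)))) := by
  refine ⟨fun q hq h5 => (special hq h5).1, ?_, fun c => ?_⟩
  · refine Iff.trans ?_ (Pool.Agent.H473R4.tendsto_iff (W (1 / 2) (1 / 2))
      (fun n => (Pool.Agent.W66V.sol n).1.Prime) 5 (fun q hq h5 => by rw [(special hq h5).2]))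
    constructor
    · intro h hfin
      apply h
      refine (hfin.image Pool.Agent.W66V.sol).subset ?_
      rintro ⟨x, y⟩ ⟨h1, h2⟩
      obtain ⟨k, hk⟩ := Pool.Agent.W66V.pell_class y x h1
      refine ⟨2 * k + 1, ?_, hk⟩
      have h3 : (Pool.Agent.W66V.sol (2 * k + 1)).1.Prime := by rw [hk]; exact h2
      exact ⟨Pool.Agent.W66V.sol1_prime_index ⟨k, rfl⟩ h3, h3⟩
    · intro h hfin
      have h2 : ({p : ℕ | p.Prime ∧ (Pool.Agent.W66V.sol p).1.Prime} \ {2}).Infinite :=
        h.diff (Set.finite_singleton 2)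
      have hinj : Set.InjOn Pool.Agent.W66V.sol
          ({p : ℕ | p.Prime ∧ (Pool.Agent.W66V.sol p).1.Prime} \ {2}) := by
        intro m hm n hn hmn
        have hm1 : 1 ≤ m := hm.1.1.one_lt.le
        have hn1 : 1 ≤ n := hn.1.1.one_lt.le
        rcases Nat.lt_trichotomy m n with h3 | h3 | h3
        · have := Pool.Agent.W66V.sol1_mono hm1 h3
          rw [hmn] at this
          exact absurd this (lt_irrefl _)
        · exact h3
        · have := Pool.Agent.W66V.sol1_mono hn1 h3
          rw [hmn] at this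
          exact absurd this (lt_irrefl _)
      refine (h2.image hinj) (hfin.subset ?_)
      rintro _ ⟨n, ⟨⟨hn1, hn2⟩, hn3⟩, rfl⟩
      refine ⟨?_, hn2⟩
      have hodd : Odd n := hn1.odd_of_ne_two (by simpa using hn3)
      have hnorm := Pool.Agent.W66V.sol_norm n
      rw [hodd.neg_one_pow] at hnorm
      have : ((Pool.Agent.W66V.sol n).1 : ℤ) ^ 2 + 1 = 2 * ((Pool.Agent.W66V.sol n).2 : ℤ) ^ 2 := by
        linear_combination hnorm
      exact_mod_cast this
  · have h1 : 1 < 1 + Real.sqrt 2 := by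
      have : 0 < Real.sqrt 2 := Real.sqrt_pos.2 (by norm_num)
      linarith
    have key := Pool.Agent.W66V.law_irr (α := 1 + Real.sqrt 2) (κ := 1) (C := |c|) (A := 1)
      (g := fun p => c * (1 - Real.sqrt 2) ^ p) h1 zero_le_one h1 (by
        intro p
        rw [one_pow, mul_one, abs_mul, abs_pow]
        calc |c| * |1 - Real.sqrt 2| ^ p ≤ |c| * 1 :=
              mul_le_mul_of_nonneg_left (pow_le_one₀ (abs_nonneg _) Pool.Agent.W66V.silver_conj_abs.le)
                (abs_nonneg _)
          _ = |c| := mul_one _) le_rfl h1 Pool.Agent.W66V.noCoinc_silver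
    filter_upwards [key] with β h hβ
    exact h hβ

end Pool.Agent.Results.MP_927e73_nt.PellLaw
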