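import Mathlib
import Pool.Agent.W66.GI

set_option autoImplicit false

/-!
# Both components of `p ^ 2 - 2 r ^ 2 = - 1` prime: almost every amplitude

The positive solutions of `p ^ 2 - 2 r ^ 2 = - 1` are `p + r √2 = (1 + √2) ^ n`, `n` odd.  For real
`c`, real `β > 0` let `X c β n = β (1 + √2) ^ n + c (1 - √2) ^ n` and
`Y c β n = (β (1 + √2) ^ n - c (1 - √2) ^ n) / √2`: all pairs of real sequences with
`X (n + 1) + Y (n + 1) √2 = (X n + Y n √2) (1 + √2)`.  At `(c, β) = (1 / 2, 1 / 2)` these are the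
numbers `p`, `r`, and for prime indices both are equal to their `n`-rough parts.  We prove that for
every `c` and almost every `β > 0` there are only finitely many `n` for which the `n`-rough parts
of `⌊X c β n⌋` and of `⌊Y c β n⌋` are both prime.
-/

namespace Pool.Agent.Results.MP_927e73_nt.PellPairs

open Filter Topology MeasureTheory

/-- The product, with multiplicity, of the prime factors of `m` that are larger than `n`. -/
def roughPart (n m : ℕ) : ℕ := (m.primeFactorsList.filter (fun r => n < r)).prod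

/-- The first component. -/
noncomputable def X (c β : ℝ) (n : ℕ) : ℝ := β * (1 + Real.sqrt 2) ^ n + c * (1 - Real.sqrt 2) ^ n

/-- The second component. -/
noncomputable def Y (c β : ℝ) (n : ℕ) : ℝ :=
  (β * (1 + Real.sqrt 2) ^ n - c * (1 - Real.sqrt 2) ^ n) / Real.sqrt 2

/-- The indices with both rough parts prime. -/
def Both (c β : ℝ) : Set ℕ :=
  {n | (roughPart n ⌊X c β n⌋₊).Prime ∧ (roughPart n ⌊Y c β n⌋₊).Prime}

open Pool.Agent.W66V

lemma X_half (n : ℕ) : X (1 / 2) (1 / 2) n = (sol n).1 := by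
  unfold X
  rw [(sol_pow n).1, (sol_pow n).2]; ring

lemma Y_half (n : ℕ) : Y (1 / 2) (1 / 2) n = (sol n).2 := by
  have hs : Real.sqrt 2 ≠ 0 := (Real.sqrt_pos.2 (by norm_num)).ne'
  unfold Y
  rw [(sol_pow n).1, (sol_pow n).2]
  field_simp
  ring

lemma not_two_dvd {q : ℕ} (hodd : Odd q) : ¬ 2 ∣ (sol q).1 := by
  intro hd
  have hnorm := sol_norm q
  obtain ⟨k, hk⟩ := hd
  rw [hk, hodd.neg_one_pow] at hnorm
  push_cast at hnorm
  have : (2 : ℤ) * (2 * (k : ℤ) ^ 2 - ((sol q).2 : ℤ) ^ 2) = -1 := by linear_combination hnorm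
  omega

lemma rough_X {q : ℕ} (hq : q.Prime) (h5 : 5 ≤ q) :
    roughPart q ⌊X (1 / 2) (1 / 2) q⌋₊ = (sol q).1 := by
  rw [X_half, Nat.floor_natCast]
  refine Pool.Agent.H447R2.ML.roughPart_eq_self (sol1_pos q).ne' fun l hl hd => ?_
  refine Pool.Agent.H447R2.ML.lt_of_dvd_V 2 hq h5 ?_ hl ?_ ?_
  · intro h2
    have := Nat.le_of_dvd (by norm_num) h2
    omega
  · intro h2
    have h3 : l = 2 := (Nat.prime_dvd_prime_iff_eq hl Nat.prime_two).1 h2
    exact not_two_dvd (hq.odd_of_ne_two (by omega)) (h3 ▸ hd)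
  · rw [(sol_UV q).1]
    exact hd.mul_left 2

lemma rough_Y {q : ℕ} (hq : q.Prime) (h5 : 5 ≤ q) :
    roughPart q ⌊Y (1 / 2) (1 / 2) q⌋₊ = (sol q).2 := by
  have hnd : ¬ q ∣ 2 ^ 2 + 4 := by
    intro h
    have h2 : q ∣ 2 ^ 3 := by norm_num at h ⊢; exact h
    have h3 := (Nat.prime_dvd_prime_iff_eq hq Nat.prime_two).1 (hq.dvd_of_dvd_pow h2)
    omega
  have h := Pool.Agent.H447R2.ML.rough_U 2 two_pos hq h5 hnd (x := Y (1 / 2) (1 / 2) q)
    (by rw [Y_half, (sol_UV q).2.1])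
  rw [(sol_UV q).2.1] at h
  exact h

theorem result :
    -- at `(c, β) = (1 / 2, 1 / 2)` and prime index the rough parts are the numbers of the problem
    (∀ q : ℕ, q.Prime → 5 ≤ q →
      (roughPart q ⌊X (1 / 2) (1 / 2) q⌋₊ : ℝ) = X (1 / 2) (1 / 2) q ∧
      (roughPart q ⌊Y (1 / 2) (1 / 2) q⌋₊ : ℝ) = Y (1 / 2) (1 / 2) q ∧
      X (1 / 2) (1 / 2) q ^ 2 - 2 * Y (1 / 2) (1 / 2) q ^ 2 = -1) ∧
    -- Q2 is the infinitude of the prime elements of `Both` at this point
    ({x : ℕ × ℕ | x.1 ^ 2 + 1 = 2 * x.2 ^ 2 ∧ x.1.Prime ∧ x.2.Prime}.Infinite ↔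
      {q ∈ Both (1 / 2) (1 / 2) | q.Prime}.Infinite) ∧
    -- finiteness for almost every amplitude
    (∀ c : ℝ, ∀ᵐ β : ℝ, 0 < β → (Both c β).Finite) := by
  refine ⟨fun q hq h5 => ⟨?_, ?_, ?_⟩, ?_, fun c => ?_⟩
  · rw [rough_X hq h5, X_half]
  · rw [rough_Y hq h5, Y_half]
  · rw [X_half, Y_half]
    have hnorm := sol_norm q
    rw [(hq.odd_of_ne_two (by omega)).neg_one_pow] at hnorm
    exact_mod_cast hnorm
  · constructor
    · intro h hfin
      apply h
      have hfin2 : (sol '' ({q ∈ Both (1 / 2) (1 / 2) | q.Prime} ∪ Set.Iio 5)).Finite :=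
        (hfin.union (Set.finite_Iio 5)).image _
      refine hfin2.subset ?_
      rintro ⟨x, y⟩ ⟨h1, h2, h3⟩
      obtain ⟨k, hk⟩ := pell_class y x h1
      refine ⟨2 * k + 1, ?_, hk⟩
      have h4 : (sol (2 * k + 1)).1.Prime := by rw [hk]; exact h2
      have h5 : (sol (2 * k + 1)).2.Prime := by rw [hk]; exact h3
      have h6 := sol1_prime_index ⟨k, rfl⟩ h4
      by_cases h7 : 2 * k + 1 < 5
      · exact Or.inr h7
      · left
        refine ⟨⟨?_, ?_⟩, h6⟩
        · rw [rough_X h6 (by omega)]; exact h4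
        · rw [rough_Y h6 (by omega)]; exact h5
    · intro h hfin
      have h2 : ({q ∈ Both (1 / 2) (1 / 2) | q.Prime} \ Set.Iio 5).Infinite :=
        h.diff (Set.finite_Iio 5)
      have hinj : Set.InjOn sol ({q ∈ Both (1 / 2) (1 / 2) | q.Prime} \ Set.Iio 5) := by
        intro m hm n hn hmn
        have hm1 : 1 ≤ m := hm.1.2.one_lt.le
        have hn1 : 1 ≤ n := hn.1.2.one_lt.le
        rcases Nat.lt_trichotomy m n with h3 | h3 | h3
        · have := sol1_mono hm1 h3
          rw [hmn] at this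
          exact absurd this (lt_irrefl _)
        · exact h3
        · have := sol1_mono hn1 h3
          rw [hmn] at this
          exact absurd this (lt_irrefl _)
      refine (h2.image hinj) (hfin.subset ?_)
      rintro _ ⟨n, ⟨⟨⟨hn1, hn2⟩, hn3⟩, hn4⟩, rfl⟩
      have hn5 : 5 ≤ n := by simpa using hn4
      rw [rough_X hn3 hn5] at hn1
      rw [rough_Y hn3 hn5] at hn2
      refine ⟨?_, hn1, hn2⟩
      have hnorm := sol_norm n
      rw [(hn3.odd_of_ne_two (by omega)).neg_one_pow] at hnorm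
      have : ((sol n).1 : ℤ) ^ 2 + 1 = 2 * ((sol n).2 : ℤ) ^ 2 := by linear_combination hnorm
      exact_mod_cast this
  · have hs : Real.sqrt 2 * Real.sqrt 2 = 2 := Real.mul_self_sqrt (by norm_num)
    have hs0 : 0 < Real.sqrt 2 := Real.sqrt_pos.2 (by norm_num)
    have hs1 : 1 ≤ Real.sqrt 2 := Real.one_le_sqrt.2 (by norm_num)
    have h1 : 1 < 1 + Real.sqrt 2 := by linarith
    have hpw : ∀ p : ℕ, |1 - Real.sqrt 2| ^ p ≤ 1 := fun p =>
      pow_le_one₀ (abs_nonneg _) silver_conj_abs.le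
    have key := pairs_ae (α := 1 + Real.sqrt 2) (κ := 1) (C := 2 * |c|) (A := Real.sqrt 2)
      (ρ := Real.sqrt 2) (g := fun p => -(c * (1 - Real.sqrt 2) ^ p / Real.sqrt 2))
      (k := fun p => 2 * (c * (1 - Real.sqrt 2) ^ p)) h1 zero_le_one h1 (by
        intro p
        rw [one_pow, mul_one, abs_neg, abs_div, abs_mul, abs_pow, abs_of_pos hs0]
        rw [div_le_iff₀ hs0]
        have h2 := mul_le_mul_of_nonneg_left (hpw p) (abs_nonneg c)
        have h3 := mul_le_mul_of_nonneg_left hs1 (abs_nonneg c)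
        linarith [abs_nonneg c]) (by
        intro p
        rw [one_pow, mul_one, abs_mul, abs_mul, abs_pow, abs_of_pos (by norm_num : (0 : ℝ) < 2)]
        have h2 := mul_le_mul_of_nonneg_left (hpw p) (abs_nonneg c)
        linarith) hs1 (by linarith) hs1 dio_sqrt2
    have hscale : ∀ᵐ β : ℝ, 0 < β / Real.sqrt 2 → {n : ℕ |
        (Pool.Agent.H305R2.roughPart n ⌊β / Real.sqrt 2 * (1 + Real.sqrt 2) ^ n +
          -(c * (1 - Real.sqrt 2) ^ n / Real.sqrt 2)⌋₊).Prime ∧
        (Pool.Agent.H305R2.roughPart n ⌊Real.sqrt 2 * (β / Real.sqrt 2 * (1 + Real.sqrt 2) ^ n) +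
          (Real.sqrt 2 * -(c * (1 - Real.sqrt 2) ^ n / Real.sqrt 2) +
            2 * (c * (1 - Real.sqrt 2) ^ n))⌋₊).Prime}.Finite := by
      have hq : MeasureTheory.Measure.QuasiMeasurePreserving (fun β : ℝ => β * (Real.sqrt 2)⁻¹)
          volume volume := by
        refine ⟨by fun_prop, ?_⟩
        rw [Real.map_volume_mul_right (inv_ne_zero hs0.ne')]
        exact MeasureTheory.Measure.smul_absolutelyContinuous
      have := hq.ae key
      simpa only [div_eq_mul_inv] using this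
    filter_upwards [hscale] with β h hβ
    refine (h (by positivity)).subset ?_
    intro n hn
    obtain ⟨n1, n2⟩ := hn
    have e1 : β / Real.sqrt 2 * (1 + Real.sqrt 2) ^ n + -(c * (1 - Real.sqrt 2) ^ n / Real.sqrt 2) =
        Y c β n := by unfold Y; ring
    have e2 : Real.sqrt 2 * (β / Real.sqrt 2 * (1 + Real.sqrt 2) ^ n) +
          (Real.sqrt 2 * -(c * (1 - Real.sqrt 2) ^ n / Real.sqrt 2) +
            2 * (c * (1 - Real.sqrt 2) ^ n)) = X c β n := by
      unfold X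
      field_simp
      ring
    refine ⟨?_, ?_⟩
    · show (Pool.Agent.H305R2.roughPart n ⌊β / Real.sqrt 2 * (1 + Real.sqrt 2) ^ n +
          -(c * (1 - Real.sqrt 2) ^ n / Real.sqrt 2)⌋₊).Prime
      rw [e1]; exact n2
    · show (Pool.Agent.H305R2.roughPart n ⌊Real.sqrt 2 * (β / Real.sqrt 2 * (1 + Real.sqrt 2) ^ n) +
          (Real.sqrt 2 * -(c * (1 - Real.sqrt 2) ^ n / Real.sqrt 2) +
            2 * (c * (1 - Real.sqrt 2) ^ n))⌋₊).Prime
      rw [e2]; exact n1

end Pool.Agent.Results.MP_927e73_nt.PellPairs
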