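import Mathlib
import Pool.Agent.W66.CM
import Pool.Agent.W66.GG
import Pool.Agent.H447R2.ML.Spec
import Pool.Agent.H473R4.Count

set_option autoImplicit false

/-!
# Newman-Shanks-Williams primes: the asymptotic law for almost every real parameter

For real `u > 0` let `(X u n, Y u n)` be given by `X + Y √(u ^ 2 + 1) = (u + √(u ^ 2 + 1)) ^ n`, so
that `X ^ 2 - (u ^ 2 + 1) Y ^ 2 = (-1) ^ n`; at `u = 1` and odd `n` these are the solutions of
`p ^ 2 - 2 r ^ 2 = -1`.  For a function `A` and a prime `q` let `W A u q` be the `q`-rough part (the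
product, with multiplicity, of the prime factors larger than `q`) of `⌊A u * X u q⌋`, and let
`N A u n` be the number of primes `q ≤ n` with `W A u q` prime.  We prove that for every positive
`C ^ 2` function `A` on `(0, ∞)` and almost every `u > 0` the limit of `N A u n / log n` exists and
equals `e ^ γ / log (u + √(u ^ 2 + 1))`.
-/

namespace Pool.Agent.Results.MP_927e73_nt.RealPellLaw

open Filter Topology MeasureTheory

/-- The product, with multiplicity, of the prime factors of `m` that are larger than `q`. -/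
def roughPart (q m : ℕ) : ℕ := (m.primeFactorsList.filter (fun r => q < r)).prod

/-- The pair `(X, Y)` with `X + Y √(u ^ 2 + 1) = (u + √(u ^ 2 + 1)) ^ n`. -/
noncomputable def pell (u : ℝ) : ℕ → ℝ × ℝ
  | 0 => (1, 0)
  | (n + 1) => (u * (pell u n).1 + (u ^ 2 + 1) * (pell u n).2, (pell u n).1 + u * (pell u n).2)

/-- The `q`-rough part of `⌊A u * X u q⌋`. -/
noncomputable def W (A : ℝ → ℝ) (u : ℝ) (q : ℕ) : ℕ := roughPart q ⌊A u * (pell u q).1⌋₊

/-- The number of primes `q ≤ n` for which `W A u q` is prime. -/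
noncomputable def N (A : ℝ → ℝ) (u : ℝ) (n : ℕ) : ℕ :=
  ((Finset.range (n + 1)).filter (fun q => q.Prime ∧ (W A u q).Prime)).card

lemma pell_eq (u : ℝ) : ∀ n : ℕ, pell u n = Pool.Agent.W66C.pell u n
  | 0 => rfl
  | (n + 1) => by
      show (u * (pell u n).1 + (u ^ 2 + 1) * (pell u n).2, (pell u n).1 + u * (pell u n).2) =
        (u * (Pool.Agent.W66C.pell u n).1 + (u ^ 2 + 1) * (Pool.Agent.W66C.pell u n).2,
          (Pool.Agent.W66C.pell u n).1 + u * (Pool.Agent.W66C.pell u n).2)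
      rw [pell_eq u n]

lemma pell_root (u : ℝ) : ∀ n : ℕ,
    (pell u n).1 + (pell u n).2 * Real.sqrt (u ^ 2 + 1) = (u + Real.sqrt (u ^ 2 + 1)) ^ n
  | 0 => by simp [pell]
  | (n + 1) => by
      have hs : Real.sqrt (u ^ 2 + 1) * Real.sqrt (u ^ 2 + 1) = u ^ 2 + 1 :=
        Real.mul_self_sqrt (by positivity)
      rw [pow_succ (u + Real.sqrt (u ^ 2 + 1)) n, ← pell_root u n]
      show (u * (pell u n).1 + (u ^ 2 + 1) * (pell u n).2) +
        ((pell u n).1 + u * (pell u n).2) * Real.sqrt (u ^ 2 + 1) = _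
      linear_combination -(pell u n).2 * hs

lemma pell_one : ∀ n : ℕ, pell 1 n =
    (((Pool.Agent.W66V.sol n).1 : ℝ), ((Pool.Agent.W66V.sol n).2 : ℝ))
  | 0 => by simp [pell, Pool.Agent.W66V.sol]
  | (n + 1) => by
      show ((1 : ℝ) * (pell 1 n).1 + (1 ^ 2 + 1) * (pell 1 n).2, (pell 1 n).1 + 1 * (pell 1 n).2) = _
      rw [pell_one n, Pool.Agent.W66V.sol_succ1, Pool.Agent.W66V.sol_succ2]
      push_cast
      ext
      · show _ = _
        ring
      · show _ = _
        ring

/-- The special point. -/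
lemma special {A : ℝ → ℝ} (hA : A 1 = 1) {q : ℕ} (hq : q.Prime) (h5 : 5 ≤ q) :
    W A 1 q = (Pool.Agent.W66V.sol q).1 := by
  have hx : A 1 * (pell 1 q).1 = (Pool.Agent.W66V.sol q).1 := by
    rw [hA, pell_one, one_mul]
  unfold W
  rw [hx, Nat.floor_natCast]
  refine Pool.Agent.H447R2.ML.roughPart_eq_self (Pool.Agent.W66V.sol1_pos q).ne' fun l hl hd => ?_
  have hnorm := Pool.Agent.W66V.sol_norm q
  refine Pool.Agent.H447R2.ML.lt_of_dvd_V 2 hq h5 ?_ hl ?_ ?_
  · intro h2
    have := Nat.le_of_dvd (by norm_num) h2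
    omega
  · intro h2
    have h3 : l = 2 := (Nat.prime_dvd_prime_iff_eq hl Nat.prime_two).1 h2
    rw [h3] at hd
    obtain ⟨k, hk⟩ := hd
    rw [hk] at hnorm
    have hodd : Odd q := hq.odd_of_ne_two (by omega)
    rw [hodd.neg_one_pow] at hnorm
    push_cast at hnorm
    have : (2 : ℤ) * (2 * (k : ℤ) ^ 2 - ((Pool.Agent.W66V.sol q).2 : ℤ) ^ 2) = -1 := by
      linear_combination hnorm
    omega
  · rw [(Pool.Agent.W66V.sol_UV q).1]
    exact hd.mul_left 2

theorem result :
    -- the real Pell pairs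
    (∀ (u : ℝ) (n : ℕ),
      (pell u n).1 + (pell u n).2 * Real.sqrt (u ^ 2 + 1) = (u + Real.sqrt (u ^ 2 + 1)) ^ n ∧
      (pell u n).1 ^ 2 - (u ^ 2 + 1) * (pell u n).2 ^ 2 = (-1) ^ n) ∧
    -- the numbers of the problem are the values at `u = 1`
    (∀ A : ℝ → ℝ, A 1 = 1 → ∀ q : ℕ, q.Prime → 5 ≤ q → (W A 1 q : ℝ) = (pell 1 q).1) ∧
    -- Q1 is the unboundedness of the counting function at this point
    (∀ A : ℝ → ℝ, A 1 = 1 → ({x : ℕ × ℕ | x.1 ^ 2 + 1 = 2 * x.2 ^ 2 ∧ x.1.Prime}.Infinite ↔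
      Tendsto (fun n => N A 1 n) atTop atTop)) ∧
    -- the law along every curve, for almost every real parameter
    (∀ A : ℝ → ℝ, ContDiffOn ℝ 2 A (Set.Ioi 0) → (∀ u : ℝ, 0 < u → 0 < A u) →
      ∀ᵐ u : ℝ, 0 < u → Tendsto (fun n : ℕ => (N A u n : ℝ) / Real.log n) atTop
        (𝓝 (Real.exp Real.eulerMascheroniConstant / Real.log (u + Real.sqrt (u ^ 2 + 1))))) := by
  refine ⟨fun u n => ⟨pell_root u n, by rw [pell_eq]; exact Pool.Agent.W66C.pell_norm u n⟩,
    fun A hA q hq h5 => ?_, fun A hA => ?_, fun A hA hpos => ?_⟩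
  · rw [special hA hq h5, pell_one]
  · refine Iff.trans ?_ (Pool.Agent.H473R4.tendsto_iff (W A 1)
      (fun n => (Pool.Agent.W66V.sol n).1.Prime) 5 (fun q hq h5 => by rw [special hA hq h5]))
    constructor
    · intro h hfin
      apply h
      refine (hfin.image Pool.Agent.W66V.sol).subset ?_
      rintro ⟨x, y⟩ ⟨h1, h2⟩
      obtain ⟨k, hk⟩ := Pool.Agent.W66V.pell_class y x h1
      refine ⟨2 * k + 1, ?_, hk⟩
      have h3 : (Pool.Agent.W66V.sol (2 * k + 1)).1.Prime := by rw [hk]; exact h2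
      exact ⟨Pool.Agent.W66V.sol1_prime_index ⟨k, rfl⟩ h3, h3⟩
    · intro h hfin
      have h2 : ({p : ℕ | p.Prime ∧ (Pool.Agent.W66V.sol p).1.Prime} \ {2}).Infinite :=
        h.sdiff (Set.finite_singleton 2)
      have hinj : Set.InjOn Pool.Agent.W66V.sol
          ({p : ℕ | p.Prime ∧ (Pool.Agent.W66V.sol p).1.Prime} \ {2}) := by
        intro m hm n hn hmn
        have hm1 : 1 ≤ m := hm.1.1.one_lt.le
        have hn1 : 1 ≤ n := hn.1.1.one_lt.le
        rcases Nat.lt_trichotomy m n with h3 | h3 | h3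
        · have := Pool.Agent.W66V.sol1_mono hm1 h3
          rw [hmn] at this
          exact absurd this (lt_irrefl _)
        · exact h3
        · have := Pool.Agent.W66V.sol1_mono hn1 h3
          rw [hmn] at this
          exact absurd this (lt_irrefl _)
      refine (h2.image hinj) (hfin.subset ?_)
      rintro _ ⟨n, ⟨⟨hn1, hn2⟩, hn3⟩, rfl⟩
      refine ⟨?_, hn2⟩
      have hodd : Odd n := hn1.odd_of_ne_two (by simpa using hn3)
      have hnorm := Pool.Agent.W66V.sol_norm n
      rw [hodd.neg_one_pow] at hnorm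
      have : ((Pool.Agent.W66V.sol n).1 : ℤ) ^ 2 + 1 = 2 * ((Pool.Agent.W66V.sol n).2 : ℤ) ^ 2 := by
        linear_combination hnorm
      exact_mod_cast this
  · have h := Pool.Agent.W66C.law_pell hA hpos
    simp only [← pell_eq] at h
    exact h

end Pool.Agent.Results.MP_927e73_nt.RealPellLaw
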