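import Mathlib
import Pool.Agent.W66.CM
import Pool.Agent.W66.GI

set_option autoImplicit false

/-!
# Both components of `p ^ 2 - 2 r ^ 2 = - 1` prime: almost every real parameter

For real `u > 0` let `(X u n, Y u n)` be given by `X + Y √(u ^ 2 + 1) = (u + √(u ^ 2 + 1)) ^ n`, so
that `X ^ 2 - (u ^ 2 + 1) Y ^ 2 = (-1) ^ n`; at `u = 1` and odd `n` these are the solutions of
`p ^ 2 - 2 r ^ 2 = -1`.  We prove that for every positive `C ^ 2` function `A` on `(0, ∞)` and almost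
every `u > 0` there are only finitely many `n` for which the `n`-rough parts (the products, with
multiplicity, of the prime factors larger than `n`) of `⌊A u * X u n⌋` and of `⌊A u * Y u n⌋` are
both prime.
-/

namespace Pool.Agent.Results.MP_927e73_nt.RealPellPairs

open Filter Topology MeasureTheory

/-- The product, with multiplicity, of the prime factors of `m` that are larger than `n`. -/
def roughPart (n m : ℕ) : ℕ := (m.primeFactorsList.filter (fun r => n < r)).prod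

/-- The pair `(X, Y)` with `X + Y √(u ^ 2 + 1) = (u + √(u ^ 2 + 1)) ^ n`. -/
noncomputable def pell (u : ℝ) : ℕ → ℝ × ℝ
  | 0 => (1, 0)
  | (n + 1) => (u * (pell u n).1 + (u ^ 2 + 1) * (pell u n).2, (pell u n).1 + u * (pell u n).2)

/-- The indices with both rough parts prime. -/
def Both (A : ℝ → ℝ) (u : ℝ) : Set ℕ :=
  {n | (roughPart n ⌊A u * (pell u n).1⌋₊).Prime ∧ (roughPart n ⌊A u * (pell u n).2⌋₊).Prime}

open Pool.Agent.W66V

lemma pell_eq (u : ℝ) : ∀ n : ℕ, pell u n = Pool.Agent.W66C.pell u n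
  | 0 => rfl
  | (n + 1) => by
      show (u * (pell u n).1 + (u ^ 2 + 1) * (pell u n).2, (pell u n).1 + u * (pell u n).2) =
        (u * (Pool.Agent.W66C.pell u n).1 + (u ^ 2 + 1) * (Pool.Agent.W66C.pell u n).2,
          (Pool.Agent.W66C.pell u n).1 + u * (Pool.Agent.W66C.pell u n).2)
      rw [pell_eq u n]

lemma pell_root (u : ℝ) : ∀ n : ℕ,
    (pell u n).1 + (pell u n).2 * Real.sqrt (u ^ 2 + 1) = (u + Real.sqrt (u ^ 2 + 1)) ^ n
  | 0 => by simp [pell]
  | (n + 1) => by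
      have hs : Real.sqrt (u ^ 2 + 1) * Real.sqrt (u ^ 2 + 1) = u ^ 2 + 1 :=
        Real.mul_self_sqrt (by positivity)
      rw [pow_succ (u + Real.sqrt (u ^ 2 + 1)) n, ← pell_root u n]
      show (u * (pell u n).1 + (u ^ 2 + 1) * (pell u n).2) +
        ((pell u n).1 + u * (pell u n).2) * Real.sqrt (u ^ 2 + 1) = _
      linear_combination -(pell u n).2 * hs

lemma pell_one : ∀ n : ℕ, pell 1 n = (((sol n).1 : ℝ), ((sol n).2 : ℝ))
  | 0 => by simp [pell, sol]
  | (n + 1) => by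
      show ((1 : ℝ) * (pell 1 n).1 + (1 ^ 2 + 1) * (pell 1 n).2, (pell 1 n).1 + 1 * (pell 1 n).2) = _
      rw [pell_one n, sol_succ1, sol_succ2]
      push_cast
      ext
      · show _ = _
        ring
      · show _ = _
        ring

lemma not_two_dvd {q : ℕ} (hodd : Odd q) : ¬ 2 ∣ (sol q).1 := by
  intro hd
  have hnorm := sol_norm q
  obtain ⟨k, hk⟩ := hd
  rw [hk, hodd.neg_one_pow] at hnorm
  push_cast at hnorm
  have : (2 : ℤ) * (2 * (k : ℤ) ^ 2 - ((sol q).2 : ℤ) ^ 2) = -1 := by linear_combination hnorm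
  omega

lemma rough_X {A : ℝ → ℝ} (hA : A 1 = 1) {q : ℕ} (hq : q.Prime) (h5 : 5 ≤ q) :
    roughPart q ⌊A 1 * (pell 1 q).1⌋₊ = (sol q).1 := by
  rw [hA, one_mul, pell_one, Nat.floor_natCast]
  refine Pool.Agent.H447R2.ML.roughPart_eq_self (sol1_pos q).ne' fun l hl hd => ?_
  refine Pool.Agent.H447R2.ML.lt_of_dvd_V 2 hq h5 ?_ hl ?_ ?_
  · intro h2
    have := Nat.le_of_dvd (by norm_num) h2
    omega
  · intro h2
    have h3 : l = 2 := (Nat.prime_dvd_prime_iff_eq hl Nat.prime_two).1 h2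
    exact not_two_dvd (hq.odd_of_ne_two (by omega)) (h3 ▸ hd)
  · rw [(sol_UV q).1]
    exact hd.mul_left 2

lemma rough_Y {A : ℝ → ℝ} (hA : A 1 = 1) {q : ℕ} (hq : q.Prime) (h5 : 5 ≤ q) :
    roughPart q ⌊A 1 * (pell 1 q).2⌋₊ = (sol q).2 := by
  have hnd : ¬ q ∣ 2 ^ 2 + 4 := by
    intro h
    have h2 : q ∣ 2 ^ 3 := by norm_num at h ⊢; exact h
    have h3 := (Nat.prime_dvd_prime_iff_eq hq Nat.prime_two).1 (hq.dvd_of_dvd_pow h2)
    omega
  have h := Pool.Agent.H447R2.ML.rough_U 2 two_pos hq h5 hnd (x := A 1 * (pell 1 q).2)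
    (by rw [hA, one_mul, pell_one, (sol_UV q).2.1])
  rw [(sol_UV q).2.1] at h
  exact h

theorem result :
    -- the real Pell pairs
    (∀ (u : ℝ) (n : ℕ),
      (pell u n).1 + (pell u n).2 * Real.sqrt (u ^ 2 + 1) = (u + Real.sqrt (u ^ 2 + 1)) ^ n ∧
      (pell u n).1 ^ 2 - (u ^ 2 + 1) * (pell u n).2 ^ 2 = (-1) ^ n) ∧
    -- at `u = 1` and prime index the rough parts are the numbers of the problem
    (∀ A : ℝ → ℝ, A 1 = 1 → ∀ q : ℕ, q.Prime → 5 ≤ q →
      (roughPart q ⌊A 1 * (pell 1 q).1⌋₊ : ℝ) = (pell 1 q).1 ∧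
      (roughPart q ⌊A 1 * (pell 1 q).2⌋₊ : ℝ) = (pell 1 q).2) ∧
    -- Q2 is the infinitude of the prime elements of `Both` at this point
    (∀ A : ℝ → ℝ, A 1 = 1 →
      ({x : ℕ × ℕ | x.1 ^ 2 + 1 = 2 * x.2 ^ 2 ∧ x.1.Prime ∧ x.2.Prime}.Infinite ↔
        {q ∈ Both A 1 | q.Prime}.Infinite)) ∧
    -- finiteness along every curve, for almost every real parameter
    (∀ A : ℝ → ℝ, ContDiffOn ℝ 2 A (Set.Ioi 0) → (∀ u : ℝ, 0 < u → 0 < A u) →
      ∀ᵐ u : ℝ, 0 < u → (Both A u).Finite) := by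
  refine ⟨fun u n => ⟨pell_root u n, by rw [pell_eq]; exact Pool.Agent.W66C.pell_norm u n⟩,
    fun A hA q hq h5 => ⟨?_, ?_⟩, fun A hA => ?_, fun A hA hpos => ?_⟩
  · rw [rough_X hA hq h5, pell_one]
  · rw [rough_Y hA hq h5, pell_one]
  · constructor
    · intro h hfin
      apply h
      have hfin2 : (sol '' ({q ∈ Both A 1 | q.Prime} ∪ Set.Iio 5)).Finite :=
        (hfin.union (Set.finite_Iio 5)).image _
      refine hfin2.subset ?_
      rintro ⟨x, y⟩ ⟨h1, h2, h3⟩
      obtain ⟨k, hk⟩ := pell_class y x h1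
      refine ⟨2 * k + 1, ?_, hk⟩
      have h4 : (sol (2 * k + 1)).1.Prime := by rw [hk]; exact h2
      have h5 : (sol (2 * k + 1)).2.Prime := by rw [hk]; exact h3
      have h6 := sol1_prime_index ⟨k, rfl⟩ h4
      by_cases h7 : 2 * k + 1 < 5
      · exact Or.inr h7
      · left
        refine ⟨⟨?_, ?_⟩, h6⟩
        · rw [rough_X hA h6 (by omega)]; exact h4
        · rw [rough_Y hA h6 (by omega)]; exact h5
    · intro h hfin
      have h2 : ({q ∈ Both A 1 | q.Prime} \ Set.Iio 5).Infinite :=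
        h.sdiff (Set.finite_Iio 5)
      have hinj : Set.InjOn sol ({q ∈ Both A 1 | q.Prime} \ Set.Iio 5) := by
        intro m hm n hn hmn
        have hm1 : 1 ≤ m := hm.1.2.one_lt.le
        have hn1 : 1 ≤ n := hn.1.2.one_lt.le
        rcases Nat.lt_trichotomy m n with h3 | h3 | h3
        · have := sol1_mono hm1 h3
          rw [hmn] at this
          exact absurd this (lt_irrefl _)
        · exact h3
        · have := sol1_mono hn1 h3
          rw [hmn] at this
          exact absurd this (lt_irrefl _)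
      refine (h2.image hinj) (hfin.subset ?_)
      rintro _ ⟨n, ⟨⟨⟨hn1, hn2⟩, hn3⟩, hn4⟩, rfl⟩
      have hn5 : 5 ≤ n := by simpa using hn4
      rw [rough_X hA hn3 hn5] at hn1
      rw [rough_Y hA hn3 hn5] at hn2
      refine ⟨?_, hn1, hn2⟩
      have hnorm := sol_norm n
      rw [(hn3.odd_of_ne_two (by omega)).neg_one_pow] at hnorm
      have : ((sol n).1 : ℤ) ^ 2 + 1 = 2 * ((sol n).2 : ℤ) ^ 2 := by linear_combination hnorm
      exact_mod_cast this
  · have h := Pool.Agent.W66C.pairs_pell hA hpos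
    simp only [← pell_eq] at h
    exact h

end Pool.Agent.Results.MP_927e73_nt.RealPellPairs
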